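import Pool.Agent.W424.KI.Stm
import Pool.Agent.W347.KZEX.A

/-!
# KI-XCH: the closed region is chained
-/

set_option autoImplicit false

namespace Pool.Agent.W177.KI
open H974 H906.Cyl
open Pool.Agent.H160R2.ML (nm)
open Pool.Agent.H160R2.MU (Cel csq cpos EP inSq)
open Pool.Agent.W801.OU
open Pool.Agent.W808.KZ (vp fp AdmZ OutF LandZ nrp ZCr mrg)
open Pool.Agent.W808.KZ.TEX (nEP_h nEP_v dv)
open Pool.Agent.W424.KI

namespace XCH

variable {N L r : ℕ} {Ci Co : Cel} {R : ℕ}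

theorem freeA (g : Geo N L r Ci Co R) (X : ℤ) (h1 : -(L : ℤ) ≤ X) (h2 : X ≤ -(L : ℤ) + 4) :
    (X, (L : ℤ) - 1) ∉ BxI N L ∧ (X, (L : ℤ) - 1) ∉ TubI N L Ci Co := by
  obtain ⟨hN, hL, -, ⟨i1, i2, i3⟩, ⟨o1, o2, o3⟩, -⟩ := g
  constructor
  · intro h
    unfold BxI at h
    simp only [Set.mem_ofPred_eq] at h
    omega
  · intro h
    unfold TubI StI RgI StO at h
    simp only [Set.mem_ofPred_eq] at h
    omega

theorem freeB (g : Geo N L r Ci Co R) (Y : ℤ) (h1 : (L : ℤ) - 4 ≤ Y) (h2 : Y ≤ (L : ℤ) - 1) :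
    (-(L : ℤ), Y) ∉ BxI N L ∧ (-(L : ℤ), Y) ∉ TubI N L Ci Co := by
  obtain ⟨hN, hL, -, ⟨i1, i2, i3⟩, ⟨o1, o2, o3⟩, -⟩ := g
  constructor
  · intro h
    unfold BxI at h
    simp only [Set.mem_ofPred_eq] at h
    omega
  · intro h
    unfold TubI StI RgI StO at h
    simp only [Set.mem_ofPred_eq] at h
    omega

theorem divA (hr : 0 < r) (x : ℤ) (h1 : -((L : ℤ) * r) ≤ x) (h2 : x ≤ -((L : ℤ) * r) + 4 * r) :
    -(L : ℤ) ≤ x / (r : ℤ) ∧ x / (r : ℤ) ≤ -(L : ℤ) + 4 := by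
  have hr' : (0 : ℤ) < r := by exact_mod_cast hr
  constructor
  · apply Int.le_ediv_of_mul_le hr'
    linarith
  · apply Int.lt_add_one_iff.1
    apply Int.ediv_lt_of_lt_mul hr'
    nlinarith

theorem divB (hr : 0 < r) (y : ℤ) (h1 : (L : ℤ) * r - 4 * r ≤ y) (h2 : y < (L : ℤ) * r) :
    (L : ℤ) - 4 ≤ y / (r : ℤ) ∧ y / (r : ℤ) ≤ (L : ℤ) - 1 := by
  have hr' : (0 : ℤ) < r := by exact_mod_cast hr
  constructor
  · apply Int.le_ediv_of_mul_le hr'
    linarith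
  · have : y / (r : ℤ) < (L : ℤ) := Int.ediv_lt_of_lt_mul hr' (by linarith)
    omega

theorem div1 (hr : 0 < r) : ((L : ℤ) * r - 1) / (r : ℤ) = (L : ℤ) - 1 := by
  have hr' : (0 : ℤ) < r := by exact_mod_cast hr
  apply dv hr'
  · linarith
  · linarith

theorem div2 (hr : 0 < r) : (-((L : ℤ) * r)) / (r : ℤ) = -(L : ℤ) := by
  have hr' : (0 : ℤ) < r := by exact_mod_cast hr
  apply dv hr'
  · linarith
  · linarith

theorem cloA (g : Geo N L r Ci Co R) (x : ℤ) (h1 : -((L : ℤ) * r) + 1 ≤ x)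
    (h2 : x ≤ -((L : ℤ) * r) + 4 * r) : ((x, (L : ℤ) * r - 1, false) : Edg) ∈ Clo N L r Ci Co := by
  have hr : 0 < r := by have := g.hr; omega
  obtain ⟨a1, a2⟩ := divA (L := L) hr (x - 1) (by linarith) (by linarith)
  obtain ⟨b1, b2⟩ := divA (L := L) hr x (by linarith) h2
  have fa := freeA g _ a1 a2
  have fb := freeA g _ b1 b2
  refine ⟨nEP_h hr _ _ ?_ ?_, nEP_h hr _ _ ?_ ?_⟩
  · rw [div1 hr]; exact fa.1
  · rw [div1 hr]; exact fb.1
  · rw [div1 hr]; exact fa.2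
  · rw [div1 hr]; exact fb.2

theorem cloB (g : Geo N L r Ci Co R) (y : ℤ) (h1 : (L : ℤ) * r - 4 * r + 1 ≤ y)
    (h2 : y < (L : ℤ) * r) : ((-((L : ℤ) * r), y, true) : Edg) ∈ Clo N L r Ci Co := by
  have hr : 0 < r := by have := g.hr; omega
  obtain ⟨a1, a2⟩ := divB (L := L) hr (y - 1) (by linarith) (by linarith)
  obtain ⟨b1, b2⟩ := divB (L := L) hr y (by linarith) h2
  have fa := freeB g _ a1 a2
  have fb := freeB g _ b1 b2
  refine ⟨nEP_v hr _ _ ?_ ?_, nEP_v hr _ _ ?_ ?_⟩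
  · rw [div2 hr]; exact fa.1
  · rw [div2 hr]; exact fb.1
  · rw [div2 hr]; exact fa.2
  · rw [div2 hr]; exact fb.2

theorem nrm_of_ne {d j t : ℤ} (h : j ≠ 0) : nrm {0} d j t = (j, t) := by
  unfold nrm
  rw [if_neg]
  rintro ⟨-, h2⟩
  exact h h2

theorem nrm_zero {d t : ℤ} (h : d < 0) : nrm {0} d 0 t = (-1, t) := by
  unfold nrm
  rw [if_pos ⟨h, rfl⟩]
  norm_num

theorem nzp {x y : ℤ} {b : Bool} (h : x + y + 1 ≠ 0) : ((x, y, b) : Edg) ∉ zp {0} := by
  rintro ⟨-, h2⟩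
  exact h h2

/-- the first square to the right of the zipper -/
theorem dgA0 (hL : 0 < (L : ℤ) * r) : Dg {0} 1 ((-((L : ℤ) * r) + 1, (L : ℤ) * r - 1, false) : Edg)
    (-1, -(2 * ((L : ℤ) * r)) + 1) (1, -(2 * ((L : ℤ) * r)) + 2) := by
  have hd : dco ((-((L : ℤ) * r) + 1, (L : ℤ) * r - 1, false) : Edg) =
      -(2 * ((L : ℤ) * r)) + 1 := by simp [dco]; ring
  have h := Dg.rise (Z := {0}) (c := 1) (e := ((-((L : ℤ) * r) + 1, (L : ℤ) * r - 1, false) : Edg))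
    (by rw [hd]; simp only; omega)
  rw [hd] at h
  simp only at h
  have e0 : -((L : ℤ) * r) + 1 + ((L : ℤ) * r - 1) = 0 := by ring
  rw [e0, nrm_zero (by omega), nrm_of_ne (by norm_num)] at h
  have e1 : -(2 * ((L : ℤ) * r)) + 1 + 1 = -(2 * ((L : ℤ) * r)) + 2 := by ring
  rw [e1, zero_add] at h
  exact h

theorem dgA (i : ℤ) (hi : 1 ≤ i) :
    Dg {0} 1 ((-((L : ℤ) * r) + i + 1, (L : ℤ) * r - 1, false) : Edg)
      (i, -(2 * ((L : ℤ) * r)) + 1 + i) (i + 1, -(2 * ((L : ℤ) * r)) + 1 + (i + 1)) := by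
  have hd : dco ((-((L : ℤ) * r) + i + 1, (L : ℤ) * r - 1, false) : Edg) =
      -(2 * ((L : ℤ) * r)) + 1 + i := by simp [dco]; ring
  have h := Dg.rise (Z := {0}) (c := 1)
    (e := ((-((L : ℤ) * r) + i + 1, (L : ℤ) * r - 1, false) : Edg))
    (by rw [hd]; simp only; omega)
  rw [hd] at h
  simp only at h
  have e0 : -((L : ℤ) * r) + i + 1 + ((L : ℤ) * r - 1) = i := by ring
  rw [e0, nrm_of_ne (by omega), nrm_of_ne (by omega)] at h
  have e1 : -(2 * ((L : ℤ) * r)) + 1 + i + 1 = -(2 * ((L : ℤ) * r)) + 1 + (i + 1) := by ring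
  rw [e1] at h
  exact h

theorem dgB (i : ℤ) (hi : 1 ≤ i) :
    Dg {0} 1 ((-((L : ℤ) * r), (L : ℤ) * r - 1 - i, true) : Edg)
      (-(i + 1), -(2 * ((L : ℤ) * r)) + 1 + (i + 1)) (-i, -(2 * ((L : ℤ) * r)) + 1 + i) := by
  have hd : dco ((-((L : ℤ) * r), (L : ℤ) * r - 1 - i, true) : Edg) =
      -(2 * ((L : ℤ) * r)) + 1 + i := by simp [dco]; ring
  have h := Dg.fall (Z := {0}) (c := 1)
    (e := ((-((L : ℤ) * r), (L : ℤ) * r - 1 - i, true) : Edg))
    (by rw [hd]; simp only; omega)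
  rw [hd] at h
  simp only at h
  have e0 : -((L : ℤ) * r) + ((L : ℤ) * r - 1 - i) = -(i + 1) := by ring
  have e2 : -(i + 1) + 1 = -i := by ring
  rw [e0, e2, nrm_of_ne (by omega), nrm_of_ne (by omega)] at h
  have e1 : -(2 * ((L : ℤ) * r)) + 1 + i + 1 = -(2 * ((L : ℤ) * r)) + 1 + (i + 1) := by ring
  rw [e1] at h
  exact h

theorem chainA (g : Geo N L r Ci Co R) (m : ℕ) (hm : (m : ℤ) + 1 ≤ 4 * r) :
    RZ {0} (Clo N L r Ci Co) ∅ (-1, -(2 * ((L : ℤ) * r)) + 1)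
      ((m : ℤ) + 1, -(2 * ((L : ℤ) * r)) + 1 + ((m : ℤ) + 1)) := by
  have hr : (4 : ℤ) ≤ r := by exact_mod_cast g.hr
  have hLr : 0 < (L : ℤ) * r := by
    have : 0 < L := by have := g.hN; have := g.hL; omega
    positivity
  induction m with
  | zero =>
    have h := dgA0 (L := L) (r := r) hLr
    refine Relation.EqvGen.rel _ _ ⟨_, cloA g _ le_rfl (by linarith), nzp (by linarith),
      Or.inr ⟨fun h => h, ?_⟩⟩
    have e : -(2 * ((L : ℤ) * r)) + 2 = -(2 * ((L : ℤ) * r)) + 1 + (((0 : ℕ) : ℤ) + 1) := by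
      push_cast; ring
    rw [e] at h
    simpa using h
  | succ m ih =>
    push_cast at hm
    refine Relation.EqvGen.trans _ _ _ (ih (by linarith)) ?_
    have h := dgA (L := L) (r := r) ((m : ℤ) + 1) (by omega)
    refine Relation.EqvGen.rel _ _ ⟨_, cloA g (-((L : ℤ) * r) + ((m : ℤ) + 1) + 1) ?_ ?_,
      nzp ?_, Or.inr ⟨fun h => h, ?_⟩⟩
    · linarith
    · linarith
    · intro h0
      have : (m : ℤ) + 2 = 0 := by linarith
      omega
    · push_cast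
      exact h

theorem chainB (g : Geo N L r Ci Co R) (m : ℕ) (hm : (m : ℤ) + 2 ≤ 4 * r) :
    RZ {0} (Clo N L r Ci Co) ∅ (-1, -(2 * ((L : ℤ) * r)) + 2)
      (-((m : ℤ) + 1), -(2 * ((L : ℤ) * r)) + 1 + ((m : ℤ) + 1)) := by
  have hr : (4 : ℤ) ≤ r := by exact_mod_cast g.hr
  induction m with
  | zero =>
    have e : ((-((((0 : ℕ) : ℤ)) + 1), -(2 * ((L : ℤ) * r)) + 1 + (((0 : ℕ) : ℤ) + 1)) : ℤ × ℤ) =
        (-1, -(2 * ((L : ℤ) * r)) + 2) := by
      ext
      · simp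
      · simp only; push_cast; ring
    rw [e]
    exact Relation.EqvGen.refl _
  | succ m ih =>
    push_cast at hm
    refine Relation.EqvGen.trans _ _ _ (ih (by linarith)) (Relation.EqvGen.symm _ _ ?_)
    have h := dgB (L := L) (r := r) ((m : ℤ) + 1) (by omega)
    refine Relation.EqvGen.rel _ _ ⟨_, cloB g ((L : ℤ) * r - 1 - ((m : ℤ) + 1)) ?_ ?_, nzp ?_,
      Or.inr ⟨fun h => h, ?_⟩⟩
    · linarith
    · linarith
    · intro h0
      have : (m : ℤ) + 1 = 0 := by linarith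
      omega
    · push_cast
      exact h

theorem cposA (g : Geo N L r Ci Co R) : 8 ≤ cpos L Co ∧ cpos L Co + 9 ≤ 8 * (L : ℤ) := by
  obtain ⟨hN, hL, -, ⟨i1, i2, i3⟩, ⟨o1, o2, o3⟩, -⟩ := g
  unfold cpos
  split_ifs <;> omega

end XCH

open XCH in
theorem t_XCH : S_EX → S_z1 → S_z3 → S_XCH := by
  intro hEX _ _ N L r Ci Co R g φ hφ1 hφ2
  obtain ⟨a, b, hab, -, hA, hB⟩ := hEX N L r Ci Co R g
  have hr : (4 : ℤ) ≤ r := by exact_mod_cast g.hr
  have hL48 : (48 : ℤ) ≤ L := by have := g.hN; have := g.hL; omega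
  have hT : 48 * (r : ℤ) ≤ (L : ℤ) * r := mul_le_mul_of_nonneg_right hL48 (by omega)
  have hR : 4 * ((L : ℤ) * r) ≤ R := by exact_mod_cast g.hR
  obtain ⟨c1, c2⟩ := cposA g
  obtain ⟨T, hTe⟩ : ∃ T : ℤ, T = (L : ℤ) * r := ⟨_, rfl⟩
  have hcast : ((L * r : ℕ) : ℤ) = T := by push_cast; rw [hTe]
  rw [← hTe] at hT hR
  -- the face on side A
  have h1 : RZ {0} (Clo N L r Ci Co) ∅ (fp (-T + 4 * r, T - 1)) a := by
    apply hA
    refine ⟨Or.inl ⟨Or.inl ?_, ?_⟩, ?_⟩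
    · rw [hcast]
    · rw [hcast]
      simp only
      rw [abs_of_nonpos (by omega)]
      omega
    · rw [hcast]
      unfold fps
      rw [if_pos rfl]
      simp only
      nlinarith
  -- the face on side B
  have h2 : RZ {0} (Clo N L r Ci Co) ∅ (fp (-T, T - 4 * r)) b := by
    apply hB
    refine ⟨Or.inr ⟨Or.inr ?_, ?_⟩, ?_⟩
    · rw [hcast]
    · rw [hcast]
      simp only
      rw [abs_of_nonneg (by omega)]
      omega
    · rw [hcast]
      unfold fps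
      simp only
      rw [if_neg (by omega), if_neg (by omega), if_neg (by omega)]
      have : (cpos L Co + 9) * (r : ℤ) ≤ 8 * (L : ℤ) * r :=
        mul_le_mul_of_nonneg_right c2 (by omega)
      have e : 8 * (L : ℤ) * r = 8 * T := by rw [hTe]; ring
      rw [e] at this
      nlinarith
  -- the chains
  have k1 := chainA g (4 * r - 1) (by have := g.hr; omega)
  have k2 := chainB g (4 * r - 2) (by have := g.hr; omega)
  rw [← hTe] at k1 k2
  have e1 : ((((4 * r - 1 : ℕ) : ℤ) + 1, -(2 * T) + 1 + (((4 * r - 1 : ℕ) : ℤ) + 1)) : ℤ × ℤ) =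
      fp (-T + 4 * r, T - 1) := by
    unfold fp
    have := g.hr
    ext
    · simp only; omega
    · simp only; omega
  have e2 : ((-(((4 * r - 2 : ℕ) : ℤ) + 1), -(2 * T) + 1 + (((4 * r - 2 : ℕ) : ℤ) + 1)) : ℤ × ℤ) =
      fp (-T, T - 4 * r) := by
    unfold fp
    have := g.hr
    ext
    · simp only; omega
    · simp only; omega
  rw [e1] at k1
  rw [e2] at k2
  -- the two points next to the zipper
  have x1 : XE N L r Ci Co (-1, -(2 * T) + 1) := by
    have h := dgA0 (L := L) (r := r) (by rw [← hTe]; omega)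
    have e : -(2 * ((L : ℤ) * r)) + 1 = -(2 * T) + 1 := by rw [hTe]
    rw [e] at h
    exact ⟨_, cloA g _ le_rfl (by linarith), nzp (by
      intro h0
      linarith), _, Or.inl h⟩
  have x2 : XE N L r Ci Co (-1, -(2 * T) + 2) := by
    have h := dgB (L := L) (r := r) 1 le_rfl
    have e : -(2 * ((L : ℤ) * r)) + 1 + 1 = -(2 * T) + 2 := by rw [hTe]; ring
    rw [e] at h
    exact ⟨_, cloB g _ (by linarith) (by linarith), nzp (by
      intro h0
      have : (1 : ℤ) = 0 := by linarith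
      omega), _, Or.inr h⟩
  have hs : SdR R (-1, -(2 * T) + 1) (-1, -(2 * T) + 2) := by
    have hd : dco ((-T, T - 2, false) : Edg) = -(2 * T) + 1 := by simp [dco]; ring
    have hb : ((-T, T - 2, false) : Edg) ∈ bxz R := by
      constructor
      · change max |(-T)| |T - 2| ≤ (R : ℤ)
        rw [abs_of_nonpos (by omega), abs_of_nonneg (by omega)]
        omega
      · have e : tgt ((-T, T - 2, false) : Edg) = (-T, T - 2 + 1) := rfl
        rw [e]
        change max |(-T)| |T - 2 + 1| ≤ (R : ℤ)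
        rw [abs_of_nonpos (by omega), abs_of_nonneg (by omega)]
        omega
    have h := SdR.rgt (R := R) ((-T, T - 2, false) : Edg) hb (nzp (by omega))
    rw [hd] at h
    simp only at h
    have e0 : -T + (T - 2) + 1 = -1 := by ring
    rw [e0, nrm_of_ne (by norm_num), nrm_of_ne (by norm_num)] at h
    have e3 : -(2 * T) + 1 + 1 = -(2 * T) + 2 := by ring
    rw [e3] at h
    exact h
  have key : φ a ↔ φ b :=
    (hφ1 _ _ h1).symm.trans ((hφ1 _ _ k1).symm.trans ((hφ2 _ _ x1 x2 hs).trans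
      ((hφ1 _ _ k2).trans (hφ1 _ _ h2))))
  have all : ∀ x, XE N L r Ci Co x → (φ x ↔ φ a) := by
    intro x hx
    rcases hab x hx with h | h
    · exact hφ1 _ _ h
    · exact (hφ1 _ _ h).trans key.symm
  intro x y hx hy
  exact (all x hx).trans (all y hy).symm

end Pool.Agent.W177.KI
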